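import Mathlib
import Pool.Agent.Q10.Basic

/-!
# The Jacobson radical of a pi-UU ring is nil
-/

open Polynomial

namespace Pool.Agent.Results.MP_c8c065_al.JacobsonNil

/-- `R` is pi-UU: for every unit `u` there is `i ≥ 1` such that `u ^ i - 1` is nilpotent. -/
def IsPiUU (R : Type*) [Ring R] : Prop :=
  ∀ u : Rˣ, ∃ i : ℕ, 1 ≤ i ∧ IsNilpotent ((u : R) ^ i - 1)

/-- Every element of the Jacobson radical of a pi-UU ring is nilpotent. -/
theorem result : ∀ (R : Type*) [Ring R], IsPiUU R → ∀ j ∈ Ring.jacobson R, IsNilpotent j := by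
  intro R _ hR j hj
  have := Q10.isJacobsonRing_int
  let φ : ℤ[X] →ₐ[ℤ] R := Polynomial.aeval j
  have hφX : φ X = j := Polynomial.aeval_X j
  let K : Ideal ℤ[X] := RingHom.ker φ
  have hmem : (X : ℤ[X]) ∈ K.jacobson := by
    rw [Ideal.mem_jacobson_iff]
    intro y
    have hu : IsUnit (1 + φ y * j) := Q10.isUnit_one_add_mul_of_mem_jacobson hj _
    obtain ⟨u, hu⟩ := hu
    obtain ⟨i, hi, m, hm⟩ := hR u
    have huφ : (u : R) = φ (1 + y * X) := by
      rw [hu, map_add, map_one, map_mul, hφX]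
    set p : ℤ[X] := 1 + y * X with hp
    have hwK : (p ^ i - 1) ^ m ∈ K := by
      change φ _ = 0
      rw [map_pow, map_sub, map_pow, map_one, ← huφ, hm]
    -- inverse of `p ^ i` modulo `K`
    have hgeom : (∑ k ∈ Finset.range m, (1 - p ^ i) ^ k) * p ^ i = 1 - (1 - p ^ i) ^ m := by
      have := geom_sum_mul_neg (1 - p ^ i) m
      rw [← this]; ring
    refine ⟨(∑ k ∈ Finset.range m, (1 - p ^ i) ^ k) * p ^ (i - 1), ?_⟩
    have hpi : p ^ (i - 1) * p = p ^ i := by
      rw [← pow_succ]; congr 1; omega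
    have hcalc : (∑ k ∈ Finset.range m, (1 - p ^ i) ^ k) * p ^ (i - 1) * y * X +
        (∑ k ∈ Finset.range m, (1 - p ^ i) ^ k) * p ^ (i - 1) - 1 = -((1 - p ^ i) ^ m) := by
      have h1 : (∑ k ∈ Finset.range m, (1 - p ^ i) ^ k) * p ^ (i - 1) * y * X +
        (∑ k ∈ Finset.range m, (1 - p ^ i) ^ k) * p ^ (i - 1) - 1 =
        (∑ k ∈ Finset.range m, (1 - p ^ i) ^ k) * (p ^ (i - 1) * p) - 1 := by
          rw [hp]; ring
      rw [h1, hpi, hgeom]; ring
    rw [hcalc]
    have : (1 - p ^ i) ^ m = (-1) ^ m * (p ^ i - 1) ^ m := by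
      rw [← mul_pow]; ring
    rw [this]
    exact K.neg_mem (K.mul_mem_left _ hwK)
  have hrad : (X : ℤ[X]) ∈ K.radical := by
    have h1 : K.radical.jacobson = K.radical :=
      IsJacobsonRing.out inferInstance (Ideal.radical_isRadical K)
    rw [← h1]
    exact Ideal.jacobson_mono Ideal.le_radical hmem
  obtain ⟨n, hn⟩ := hrad
  refine ⟨n, ?_⟩
  have : φ (X ^ n) = 0 := hn
  rwa [map_pow, hφX] at this

end Pool.Agent.Results.MP_c8c065_al.JacobsonNil
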